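import Pool.Agent.Helper17.CL.Inner

/-!
# Project CL, module N: primitive recursive functions are amenable
-/

set_option autoImplicit false

namespace Pool.Agent.Helper17.CL

open ZFSet

universe u₁ u₂ u₃

section N

variable {M : Set ZFSet.{0}} (h : IsInner M)
variable {α : Type u₁} [Cod α]

include h

theorem AmF.natAdd {f g : α → ℕ} (hf : AmF M f) (hg : AmF M g) : AmF M (fun x => f x + g x) := by
  have h1 : AmF M (fun q : ℕ × ℕ => q.1 + q.2) :=
    AmF.rec_nat h (G := fun m : ℕ => m) (H := fun (_ : ℕ) (_ : ℕ) (y : ℕ) => y + 1)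
      (F := fun m n => m + n) (AmF.id h)
      (AmF.natSucc h ((AmF.snd h).comp h (AmF.snd h))) (fun p => rfl) (fun p n => rfl)
  exact h1.comp h (f := fun x => (f x, g x)) (hf.prod h hg)

theorem AmF.natMul {f g : α → ℕ} (hf : AmF M f) (hg : AmF M g) : AmF M (fun x => f x * g x) := by
  have h1 : AmF M (fun q : ℕ × ℕ => q.1 * q.2) :=
    AmF.rec_nat h (G := fun _ : ℕ => (0 : ℕ)) (H := fun (m : ℕ) (_ : ℕ) (y : ℕ) => y + m)
      (F := fun m n => m * n) (AmF.const h 0 (AbsCod.mem h 0))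
      (AmF.natAdd h ((AmF.snd h).comp h (AmF.snd h)) (AmF.fst h)) (fun p => rfl) (fun p n => rfl)
  exact h1.comp h (f := fun x => (f x, g x)) (hf.prod h hg)

theorem AmF.natPair {f g : α → ℕ} (hf : AmF M f) (hg : AmF M g) :
    AmF M (fun x => Nat.pair (f x) (g x)) := by
  have h1 : AmF M (fun x => if f x < g x then g x * g x + f x else f x * f x + f x + g x) :=
    AmF.ite h (R := fun x => f x < g x) (Am.natLt h hf hg)
      ((hg.natMul h hg).natAdd h hf) (((hf.natMul h hf).natAdd h hf).natAdd h hg)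
  exact h1

theorem AmF.natUnpair {f : α → ℕ} (hf : AmF M f) : AmF M (fun x => Nat.unpair (f x)) := by
  refine AmF.mk' (fun x _ => AbsCod.mem h _) ?_
  have h1 : Am M (fun q : α × ℕ × ℕ => Nat.pair q.2.1 q.2.2 = f q.1) :=
    Am.eq h (AmF.natPair h ((AmF.fst h).comp h (AmF.snd h)) ((AmF.snd h).comp h (AmF.snd h)))
      (hf.comp h (AmF.fst h))
  refine h1.congr h fun q _ => ?_
  constructor
  · intro e
    rw [← e, Nat.pair_unpair]
  · intro e
    rw [← e, Nat.unpair_pair]

theorem AmF.natPrimrec {f : ℕ → ℕ} (hf : Nat.Primrec f) {g : α → ℕ} (hg : AmF M g) :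
    AmF M (fun x => f (g x)) := by
  have key : AmF M f := by
    clear hg g
    induction hf with
    | zero => exact AmF.const h 0 (AbsCod.mem h 0)
    | succ => exact AmF.natSucc h (AmF.id h)
    | left => exact (AmF.fst h).comp h (AmF.natUnpair h (AmF.id h))
    | right => exact (AmF.snd h).comp h (AmF.natUnpair h (AmF.id h))
    | pair _ _ h1 h2 => exact AmF.natPair h h1 h2
    | comp _ _ h1 h2 => exact h1.comp h h2
    | @prec f g _ _ h1 h2 =>
      have h3 : AmF M (fun q : ℕ × ℕ => (Nat.rec (f q.1)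
          (fun y IH => g (Nat.pair q.1 (Nat.pair y IH))) q.2 : ℕ)) :=
        AmF.rec_nat h (G := f) (H := fun (z : ℕ) (y : ℕ) (IH : ℕ) =>
          g (Nat.pair z (Nat.pair y IH)))
          (F := fun (z n : ℕ) => (Nat.rec (f z)
            (fun y IH => g (Nat.pair z (Nat.pair y IH))) n : ℕ)) h1
          (h2.comp h (f := fun q : ℕ × ℕ × ℕ => Nat.pair q.1 (Nat.pair q.2.1 q.2.2))
            (AmF.natPair h (AmF.fst h) (AmF.natPair h ((AmF.fst h).comp h (AmF.snd h))
              ((AmF.snd h).comp h (AmF.snd h))))) (fun p => rfl) (fun p n => rfl)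
      exact h3.comp h (f := fun n : ℕ => Nat.unpair n) (AmF.natUnpair h (AmF.id h))
  exact key.comp h hg

theorem AmF.primrec {f : ℕ → ℕ} (hf : Primrec f) {g : α → ℕ} (hg : AmF M g) :
    AmF M (fun x => f (g x)) := AmF.natPrimrec h (Primrec.nat_iff.1 hf) hg

theorem AmF.primrec₂ {f : ℕ → ℕ → ℕ} (hf : Primrec₂ f) {g k : α → ℕ} (hg : AmF M g)
    (hk : AmF M k) : AmF M (fun x => f (g x) (k x)) := by
  have h1 := AmF.natPrimrec h (Primrec₂.unpaired'.2 hf) (AmF.natPair h hg hk)
  simpa only [Nat.unpaired, Nat.unpair_pair] using h1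

theorem Am.primrecPred {p : ℕ → Prop} (hp : PrimrecPred p) {g : α → ℕ} (hg : AmF M g) :
    Am M (fun x => p (g x)) := by
  obtain ⟨_, hp'⟩ := hp
  have h1 := AmF.primrec h (Primrec.encode.comp hp') hg
  have h2 : Am M (fun x => Encodable.encode (decide (p (g x))) = 1) :=
    Am.eq h h1 (AmF.const h 1 (AbsCod.mem h 1))
  refine h2.congr h fun x _ => ?_
  by_cases h3 : p (g x)
  · simp [h3]
  · simp [h3]

theorem Am.primrecRel {p : ℕ → ℕ → Prop} (hp : PrimrecRel p) {g k : α → ℕ} (hg : AmF M g)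
    (hk : AmF M k) : Am M (fun x => p (g x) (k x)) := by
  have h0 : PrimrecPred (fun n : ℕ => p (Nat.unpair n).1 (Nat.unpair n).2) :=
    PrimrecRel.comp hp (Primrec.fst.comp Primrec.unpair) (Primrec.snd.comp Primrec.unpair)
  have h1 := Am.primrecPred h h0 (AmF.natPair h hg hk)
  simpa only [Nat.unpair_pair] using h1

end N

end Pool.Agent.Helper17.CL
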